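import Pool.Agent.H41.PropS2

open Pool.Agent.H41.PropS

theorem Pool.Agent.Results.MP_a0c03c_an.Disproof.result :
    ∃ (A : Type) (_ : NonUnitalNormedRing A) (_ : NormedSpace ℂ A) (_ : IsScalarTower ℂ A A)
      (_ : SMulCommClass ℂ A A) (_ : CompleteSpace A),
      FiniteDimensional ℂ (Submodule.span ℂ (rad A)) ∧ HasS A ∧ ¬ QuotHasS A (rad A) :=
  Pool.Agent.H41.PropS.main
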